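import Pool.Agent.helper38.VA.Spec

/-! # Row va:CLA -/

set_option autoImplicit false

namespace Pool.Agent.VA

open Matrix Module Pool.Agent.PR Pool.Agent.H48SL

theorem CLA_inv {n : ℕ} (b : SLZ n) (v : Fin n → ℚ) : stdM ℚ b⁻¹ *ᵥ (stdM ℚ b *ᵥ v) = v := by
  rw [Matrix.mulVec_mulVec, stdM_inv_mul, Matrix.one_mulVec]

theorem CLA_inv2 {n : ℕ} (b : SLZ n) (v : Fin n → ℚ) : stdM ℚ b *ᵥ (stdM ℚ b⁻¹ *ᵥ v) = v := by
  have h := CLA_inv b⁻¹ v
  rwa [inv_inv] at h

theorem CLA_cj {n : ℕ} (b : SLZ n) (X : MQ n) (v : Fin n → ℚ) :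
    cj b X *ᵥ v = stdM ℚ b *ᵥ (X *ᵥ (stdM ℚ b⁻¹ *ᵥ v)) := by
  rw [cj_apply, Matrix.mulVec_mulVec, Matrix.mulVec_mulVec, Matrix.mul_assoc]

/-- a subspace stable under `b` is stable under the inverse of `b` -/
theorem CLA_sta {n : ℕ} (b : SLZ n) (I : Submodule ℚ (Fin n → ℚ)) (h : Sta b I) :
    ∀ v ∈ I, stdM ℚ b⁻¹ *ᵥ v ∈ I := by
  intro v hv
  let f : (Fin n → ℚ) →ₗ[ℚ] (Fin n → ℚ) := (stdM ℚ b).mulVecLin
  have hf : ∀ x, f x = stdM ℚ b *ᵥ x := fun x => Matrix.mulVecLin_apply _ _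
  have hinj : Function.Injective f := by
    intro x y hxy
    rw [hf, hf] at hxy
    rw [← CLA_inv b x, ← CLA_inv b y, hxy]
  have hle : I.map f ≤ I := by
    rintro _ ⟨x, hx, rfl⟩
    rw [hf]
    exact h x hx
  have heq : I.map f = I := by
    apply Submodule.eq_of_le_of_finrank_eq hle
    exact (Submodule.equivMapOfInjective f hinj I).finrank_eq.symm
  rw [← heq] at hv
  obtain ⟨u, hu, huv⟩ := hv
  rw [← huv, hf, CLA_inv]
  exact hu

theorem CLA : CLA_stmt := by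
  intro n H W b hS
  constructor
  · intro I hI v hv
    unfold WI at hv ⊢
    induction hv using Submodule.span_induction with
    | mem x hx =>
      obtain ⟨X, hX, w, hw, rfl⟩ := hx
      apply Submodule.subset_span
      refine ⟨cj b X, hS.sta X hX, stdM ℚ b *ᵥ w, hI w hw, ?_⟩
      rw [CLA_cj, CLA_inv]
    | zero =>
      rw [Matrix.mulVec_zero]
      exact Submodule.zero_mem _
    | add x y _ _ h1 h2 =>
      rw [Matrix.mulVec_add]
      exact Submodule.add_mem _ h1 h2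
    | smul a x _ h1 =>
      rw [Matrix.mulVec_smul]
      exact Submodule.smul_mem _ a h1
  · rintro I K hI hK ⟨X₀, hX₀, hne, hX₀K⟩
    let W' : Submodule ℚ (MQ n) :=
      { carrier := {X | X ∈ W ∧ ∀ v ∈ I, X *ᵥ v ∈ K}
        add_mem' := by
          rintro X Y ⟨h1, h2⟩ ⟨h3, h4⟩
          refine ⟨W.add_mem h1 h3, fun v hv => ?_⟩
          rw [Matrix.add_mulVec]
          exact K.add_mem (h2 v hv) (h4 v hv)
        zero_mem' := by
          refine ⟨W.zero_mem, fun v _ => ?_⟩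
          rw [Matrix.zero_mulVec]
          exact K.zero_mem
        smul_mem' := by
          rintro c X ⟨h1, h2⟩
          refine ⟨W.smul_mem c h1, fun v hv => ?_⟩
          rw [Matrix.smul_mulVec]
          exact K.smul_mem c (h2 v hv) }
    have hm : ∀ X, X ∈ W' ↔ X ∈ W ∧ ∀ v ∈ I, X *ᵥ v ∈ K := fun X => Iff.rfl
    have heq : W' = W := by
      apply hS.irr 1 one_pos W' (fun X hX => ((hm X).1 hX).1)
      · intro h
        apply hne
        have h5 : X₀ ∈ W' := (hm X₀).2 ⟨hX₀, hX₀K⟩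
        rw [h, Submodule.mem_bot] at h5
        exact h5
      · intro X hX
        rw [pow_one]
        obtain ⟨h1, h2⟩ := (hm X).1 hX
        refine (hm _).2 ⟨hS.sta X h1, fun v hv => ?_⟩
        rw [CLA_cj]
        exact hK _ (h2 _ (CLA_sta b I hI v hv))
    intro X hX v hv
    rw [← heq] at hX
    exact ((hm X).1 hX).2 v hv

end Pool.Agent.VA
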